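import Mathlib
import Pool.Agent.Helper64.RN.Goals

/-! # Project RN, packet KK -/

set_option autoImplicit false

open scoped BigOperators

universe u

namespace Pool.Agent.Helper89.RN.KK

open Pool.Agent.Helper64.IG Pool.Agent.Helper64.RN MvPolynomial

/-- the generic form -/
noncomputable def Ph (k : Type u) [Field k] (n p : ℕ) (a : Fin p → Ix n p) :
    MvPolynomial (Option (Ix n p ⊕ Ix n p)) k :=
  X none * Matrix.det (Matrix.of fun i j : Fin p =>
    X (some (Sum.inl (a j))) * X (some (Sum.inr (a j))) ^ (i : ℕ))

theorem aeval_Ph {k K : Type u} [Field k] [Field K] [Algebra k K] {n p : ℕ}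
    (s : Option (Ix n p ⊕ Ix n p) → K) (a : Fin p → Ix n p) :
    aeval s (Ph k n p a) = s none * Matrix.det (fun i j : Fin p =>
      s (some (Sum.inl (a j))) * s (some (Sum.inr (a j))) ^ (i : ℕ)) := by
  unfold Ph
  rw [map_mul, aeval_X, AlgHom.map_det]
  congr 2
  ext i j
  simp

/-- coefficientwise coordinate -/
noncomputable def co {k K : Type u} [Field k] [Field K] [Algebra k K] {σ : Type} (l : K →ₗ[k] k)
    (h : MvPolynomial σ K) : MvPolynomial σ k :=
  ∑ m ∈ h.support, monomial m (l (coeff m h))

theorem t : Pool.Agent.Helper64.RN.S_KK.{u} := by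
  intro k K _ _ _ _ x hx n p h hh
  -- the composition with the generic form vanishes
  have h1 : aeval (fun a => map (algebraMap k K) (Ph k n p a)) h = 0 := by
    apply MvPolynomial.funext
    intro s
    rw [map_zero]
    have e1 : eval s (aeval (fun a => map (algebraMap k K) (Ph k n p a)) h) =
        eval (fun a => aeval s (Ph k n p a)) h := by
      have e2 := MvPolynomial.comp_aeval_apply
        (f := fun a : Fin p → Ix n p => map (algebraMap k K) (Ph k n p a)) (aeval s) h
      have ev : ∀ (σ : Type) (g : σ → K) (q : MvPolynomial σ K), aeval g q = eval g q :=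
        fun σ g q => by rw [MvPolynomial.aeval_def, MvPolynomial.eval, MvPolynomial.coe_eval₂Hom]; rfl
      simp only [ev] at e2
      have e3 : (fun a : Fin p → Ix n p => aeval s (Ph k n p a)) =
          fun a => eval s (map (algebraMap k K) (Ph k n p a)) := by
        funext a
        rw [MvPolynomial.eval_map, MvPolynomial.aeval_def]
      rw [e3]
      exact e2
    rw [e1]
    apply hh
    exact ⟨s none, fun e => s (some (Sum.inl e)), fun e => s (some (Sum.inr e)),
      fun a => aeval_Ph s a⟩
  -- the coordinates vanish
  have h2 : ∀ l : K →ₗ[k] k, aeval (Ph k n p) (co l h) = 0 := by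
    intro l
    ext d
    have e1 : coeff d (aeval (fun a => map (algebraMap k K) (Ph k n p a)) h) =
        ∑ m ∈ h.support, coeff m h * algebraMap k K (coeff d (m.prod fun a e => Ph k n p a ^ e)) := by
      conv_lhs => rw [← MvPolynomial.support_sum_monomial_coeff h]
      rw [map_sum, coeff_sum]
      refine Finset.sum_congr rfl fun m _ => ?_
      rw [aeval_monomial, MvPolynomial.algebraMap_eq, coeff_C_mul]
      congr 1
      have e2 : (m.prod fun a e => map (algebraMap k K) (Ph k n p a) ^ e) =
          map (algebraMap k K) (m.prod fun a e => Ph k n p a ^ e) := by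
        rw [map_finsuppProd]
        simp only [map_pow]
      rw [e2, coeff_map]
    rw [h1, coeff_zero] at e1
    rw [co, map_sum, coeff_sum, coeff_zero]
    have e3 := congrArg l e1
    rw [map_zero, map_sum] at e3
    rw [e3]
    refine Finset.sum_congr rfl fun m _ => ?_
    rw [aeval_monomial, MvPolynomial.algebraMap_eq, coeff_C_mul, mul_comm (coeff m h),
      ← Algebra.smul_def, map_smul, smul_eq_mul, mul_comm]
  -- so they vanish at `x`
  have h3 : ∀ l : K →ₗ[k] k, aeval (x.x n p) (co l h) = 0 := by
    intro l
    refine hx ⟨n, p, co l h⟩ ?_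
    rintro ω ⟨c, t, z, hω⟩
    let s : Option (Ix n p ⊕ Ix n p) → K := fun o => o.elim c (Sum.elim t z)
    have e1 : ω = fun a => aeval s (Ph k n p a) := by
      funext a
      rw [hω, aeval_Ph]
      rfl
    show aeval ω (co l h) = 0
    rw [e1, ← MvPolynomial.comp_aeval_apply (f := Ph k n p) (aeval s) (co l h), h2 l, map_zero]
  -- and `h` vanishes at `x`
  let b := Module.Basis.ofVectorSpace k K
  classical
  let I := h.support.biUnion fun m => (b.repr (coeff m h)).support
  have h4 : ∀ m ∈ h.support, coeff m h = ∑ i ∈ I, b.repr (coeff m h) i • b i := by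
    intro m hm
    conv_lhs => rw [← b.linearCombination_repr (coeff m h)]
    rw [Finsupp.linearCombination_apply]
    refine Finsupp.sum_of_support_subset _ ?_ _ ?_
    · exact Finset.subset_biUnion_of_mem (fun m => (b.repr (coeff m h)).support) hm
    · intro i _
      rw [zero_smul]
  conv_lhs => rw [← MvPolynomial.support_sum_monomial_coeff h]
  rw [map_sum]
  have h5 : ∀ m ∈ h.support, eval (x.x n p) (monomial m (coeff m h)) =
      ∑ i ∈ I, b i * aeval (x.x n p) (monomial m (b.coord i (coeff m h))) := by
    intro m hm
    rw [eval_monomial]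
    conv_lhs => rw [h4 m hm]
    rw [Finset.sum_mul]
    refine Finset.sum_congr rfl fun i _ => ?_
    rw [aeval_monomial, Algebra.smul_def, Module.Basis.coord_apply]
    ring
  rw [Finset.sum_congr rfl h5, Finset.sum_comm]
  refine Finset.sum_eq_zero fun i _ => ?_
  rw [← Finset.mul_sum, ← map_sum]
  have := h3 (b.coord i)
  rw [co] at this
  rw [this, mul_zero]

end Pool.Agent.Helper89.RN.KK
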